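import Pool.Agent.Lib.MP_da00a8_an.Main

set_option autoImplicit false

open scoped Manifold

namespace Pool.Agent.Results.MP_da00a8_an.RoundSphereHulls

open Pool.Agent.Lib.MP_da00a8_an

/-- The polynomially convex hull of a compact set `K` in `ℂ²`: the points `z` with
`|p z| ≤ max_K |p|` for every polynomial `p` (the maximum over `K` is attained, hence the
existential; for `K` empty the hull is empty). -/
def polyHull (K : Set (Fin 2 → ℂ)) : Set (Fin 2 → ℂ) :=
  {z | ∀ p : MvPolynomial (Fin 2) ℂ, ∃ w ∈ K, ‖MvPolynomial.eval z p‖ ≤ ‖MvPolynomial.eval w p‖}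

/-- The set `A` contains an analytic disc: the image of the open unit disc under some nonconstant
holomorphic map to `ℂ²`. -/
def ContainsDisc (A : Set (Fin 2 → ℂ)) : Prop :=
  ∃ f : ℂ → (Fin 2 → ℂ), DifferentiableOn ℂ f (Metric.ball (0 : ℂ) 1) ∧
    (∃ ζ ∈ Metric.ball (0 : ℂ) 1, f ζ ≠ f 0) ∧ f '' Metric.ball (0 : ℂ) 1 ⊆ A

/-- A smooth (that is, `C^∞`) map from a smooth surface to `ℂ² = ℝ⁴`. -/
def IsSmoothMap {M : Type} [TopologicalSpace M] [ChartedSpace (EuclideanSpace ℝ (Fin 2)) M]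
    (f : M → (Fin 2 → ℂ)) : Prop :=
  ContMDiff (𝓡 2) 𝓘(ℝ, Fin 2 → ℂ) ((⊤ : ℕ∞) : WithTop ℕ∞) f

/-- The derivative of a map from the plane to `ℂ² = ℝ⁴` is injective at the point `u`. -/
def InjectiveDerivAt (g : EuclideanSpace ℝ (Fin 2) → (Fin 2 → ℂ))
    (u : EuclideanSpace ℝ (Fin 2)) : Prop :=
  Function.Injective (fderiv ℝ g u)

/-- The derivative of the map, read in the chart at the point, is injective at every point. -/
def HasInjectiveDerivative {M : Type} [TopologicalSpace M]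
    [ChartedSpace (EuclideanSpace ℝ (Fin 2)) M] (f : M → (Fin 2 → ℂ)) : Prop :=
  ∀ x : M, InjectiveDerivAt (f ∘ (chartAt (EuclideanSpace ℝ (Fin 2)) x).symm)
    (chartAt (EuclideanSpace ℝ (Fin 2)) x x)

/-- `S` is a smooth closed connected surface in `ℂ² = ℝ⁴`: the image of a compact connected
Hausdorff smooth two-dimensional manifold (without boundary) under a smooth topological embedding
whose derivative is injective everywhere. -/
def IsSmoothClosedSurface (S : Set (Fin 2 → ℂ)) : Prop :=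
  ∃ (M : Type) (_ : TopologicalSpace M) (_ : ChartedSpace (EuclideanSpace ℝ (Fin 2)) M)
    (_ : IsManifold (𝓡 2) ((⊤ : ℕ∞) : WithTop ℕ∞) M) (_ : CompactSpace M) (_ : T2Space M)
    (_ : ConnectedSpace M) (f : M → (Fin 2 → ℂ)),
    IsSmoothMap f ∧ Topology.IsEmbedding f ∧ HasInjectiveDerivative f ∧ Set.range f = S

/-- The round unit sphere in `ℂ × ℝ`. -/
def roundSphere : Set (Fin 2 → ℂ) := {w | (w 1).im = 0 ∧ ‖w 0‖ ^ 2 + (w 1).re ^ 2 = 1}

/-- If `E` is a compact subset of the round sphere in `ℂ × ℝ` and `z` is in the hull of `E` but not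
in `E`, then `E` contains the circle of latitude through the height of `z`. -/
lemma latitude_circle_full {E : Set (Fin 2 → ℂ)} (hE : IsCompact E)
    (hS : ∀ w ∈ E, (w 1).im = 0 ∧ ‖w 0‖ ^ 2 + (w 1).re ^ 2 = 1)
    {z : Fin 2 → ℂ}
    (hull : ∀ p : MvPolynomial (Fin 2) ℂ, ∀ c : ℝ,
      (∀ w ∈ E, ‖MvPolynomial.eval w p‖ ≤ c) → ‖MvPolynomial.eval z p‖ ≤ c)
    (hzE : z ∉ E) :
    ∃ t r : ℝ, z 1 = (t : ℂ) ∧ ‖z 0‖ < r ∧ r ^ 2 + t ^ 2 = 1 ∧
      ∀ a : ℂ, ‖a‖ = r → (![a, (t : ℂ)] : Fin 2 → ℂ) ∈ E := by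
  have hbd : ∀ w ∈ E, |(w 1).re| ≤ 1 := by
    intro w hw
    have := (hS w hw).2
    rw [← sq_le_one_iff_abs_le_one]
    nlinarith [sq_nonneg ‖w 0‖]
  have hz : (z 1).im = 0 := im_eq_zero (fun w hw => (hS w hw).1) hbd hull
  set t : ℝ := (z 1).re with ht
  have hz1 : z 1 = (t : ℂ) := by
    apply Complex.ext
    · simp [ht]
    · simp [hz]
  set K : Set ℂ := (fun w : Fin 2 → ℂ => w 0) '' (E ∩ {w | w 1 = z 1}) with hK
  have hKc : IsCompact K := by
    refine IsCompact.image ?_ (continuous_apply 0)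
    exact hE.inter_right (isClosed_eq (continuous_apply 1) continuous_const)
  have hKmem : ∀ a : ℂ, a ∈ K → (![a, (t : ℂ)] : Fin 2 → ℂ) ∈ E := by
    rintro a ⟨w, ⟨hw, hw1⟩, rfl⟩
    have : (![w 0, (t : ℂ)] : Fin 2 → ℂ) = w := by
      ext i
      fin_cases i
      · rfl
      · simp only [Set.mem_ofPred_eq] at hw1
        simp [hw1, hz1]
    rw [this]; exact hw
  have hprop : ∀ P : Polynomial ℂ, ∀ c : ℝ, 0 < c → (∀ a ∈ K, ‖P.eval a‖ < c) →
      ‖P.eval (z 0)‖ ≤ c := by
    intro P c hc h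
    refine localize hE (fun w hw => (hS w hw).1) hull hz P c hc (fun w hw hw1 => ?_)
    exact h (w 0) ⟨w, ⟨hw, hw1⟩, rfl⟩
  have hne : K.Nonempty := by
    by_contra hcon
    rw [Set.not_nonempty_iff_eq_empty] at hcon
    have := hprop 1 (1 / 2) (by norm_num) (by simp [hcon])
    norm_num at this
  have hsq : ∀ a ∈ K, ‖a‖ ^ 2 = 1 - t ^ 2 := by
    intro a ha
    have := (hS _ (hKmem a ha)).2
    simp at this
    linarith
  have hr2 : 0 ≤ 1 - t ^ 2 := by
    obtain ⟨a, ha⟩ := hne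
    rw [← hsq a ha]; positivity
  set r : ℝ := Real.sqrt (1 - t ^ 2) with hr
  have hrr : r ^ 2 = 1 - t ^ 2 := Real.sq_sqrt hr2
  have hKr : ∀ a ∈ K, ‖a‖ = r := by
    intro a ha
    rw [hr, ← hsq a ha, Real.sqrt_sq (norm_nonneg _)]
  have hz0 : z 0 ∉ K := by
    intro h
    apply hzE
    have := hKmem _ h
    have e : (![z 0, (t : ℂ)] : Fin 2 → ℂ) = z := by
      ext i
      fin_cases i
      · rfl
      · simp [hz1]
    rwa [e] at this
  obtain ⟨hlt, hall⟩ := circle_full (Real.sqrt_nonneg _) hKc hKr hprop hz0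
  exact ⟨t, r, hz1, hlt, by linarith, fun a ha => hKmem a (hall a ha)⟩


lemma hull_iff {K : Set (Fin 2 → ℂ)} (hK : IsCompact K) (z : Fin 2 → ℂ) :
    z ∈ polyHull K ↔ ∀ p : MvPolynomial (Fin 2) ℂ, ∀ c : ℝ,
      (∀ w ∈ K, ‖MvPolynomial.eval w p‖ ≤ c) → ‖MvPolynomial.eval z p‖ ≤ c := by
  constructor
  · intro h p c hc
    obtain ⟨w, hw, hle⟩ := h p
    exact hle.trans (hc w hw)
  · intro h p
    have hcont : Continuous fun w : Fin 2 → ℂ => ‖MvPolynomial.eval w p‖ :=
      (MvPolynomial.continuous_eval p).norm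
    rcases K.eq_empty_or_nonempty with rfl | hne
    · exfalso
      have := h 1 0 (by simp)
      simp at this
      linarith
    · obtain ⟨w, hw, hmax⟩ := hK.exists_isMaxOn hne hcont.continuousOn
      exact ⟨w, hw, h p _ (fun v hv => hmax hv)⟩

lemma disc_mem_hull {E : Set (Fin 2 → ℂ)} (hE : IsCompact E) {t r : ℝ} (hr : 0 < r)
    (hcirc : ∀ a : ℂ, ‖a‖ = r → (![a, (t : ℂ)] : Fin 2 → ℂ) ∈ E) {b : ℂ} (hb : ‖b‖ < r) :
    (![b, (t : ℂ)] : Fin 2 → ℂ) ∈ polyHull E := by
  rw [hull_iff hE]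
  intro p c hp
  have hd : Differentiable ℂ (fun ζ : ℂ =>
      MvPolynomial.eval (![ζ, (t : ℂ)] : Fin 2 → ℂ) p) := by
    refine differentiable_eval _ (fun i => ?_) p
    fin_cases i
    · exact differentiable_id
    · exact differentiable_const _
  have hbd : Bornology.IsBounded (Metric.ball (0 : ℂ) r) := Metric.isBounded_ball
  refine Complex.norm_le_of_forall_mem_frontier_norm_le hbd hd.diffContOnCl (C := c) ?_
    (subset_closure (mem_ball_zero_iff.2 hb))
  intro ξ hξ
  rw [frontier_ball (0 : ℂ) hr.ne', mem_sphere_zero_iff_norm] at hξ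
  exact hp _ (hcirc _ hξ)

lemma hasInjectiveDerivative_of_mfderiv {M : Type} [TopologicalSpace M]
    [ChartedSpace (EuclideanSpace ℝ (Fin 2)) M] (f : M → (Fin 2 → ℂ))
    (hf : ContMDiff (𝓡 2) 𝓘(ℝ, Fin 2 → ℂ) ((⊤ : ℕ∞) : WithTop ℕ∞) f)
    (h : ∀ x : M, Function.Injective (mfderiv (𝓡 2) 𝓘(ℝ, Fin 2 → ℂ) f x)) :
    HasInjectiveDerivative f := by
  intro x
  have h1 := h x
  have h2 : MDifferentiableAt (𝓡 2) 𝓘(ℝ, Fin 2 → ℂ) f x := hf.mdifferentiable (by simp) x
  rw [h2.mfderiv] at h1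
  have h3 : writtenInExtChartAt (𝓡 2) 𝓘(ℝ, Fin 2 → ℂ) x f
      = f ∘ (chartAt (EuclideanSpace ℝ (Fin 2)) x).symm := by
    ext u i
    simp [writtenInExtChartAt, extChartAt]
  rw [h3] at h1
  have h4 : (extChartAt (𝓡 2) x) x = chartAt (EuclideanSpace ℝ (Fin 2)) x x := by
    simp [extChartAt]
  rw [h4] at h1
  have h5 : Set.range (𝓡 2) = Set.univ := by simp
  rw [h5, fderivWithin_univ] at h1
  exact h1

lemma surface_roundSphere : IsSmoothClosedSurface roundSphere := by
  have : Fact (Module.finrank ℝ (EuclideanSpace ℝ (Fin 3)) = 2 + 1) :=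
    ⟨by simp⟩
  let S := Metric.sphere (0 : EuclideanSpace ℝ (Fin 3)) 1
  have hcomp : CompactSpace S := isCompact_iff_compactSpace.1 (isCompact_sphere _ _)
  have hman : IsManifold (𝓡 2) ((⊤ : ℕ∞) : WithTop ℕ∞) S := IsManifold.of_le (n := ⊤) le_top
  have hconn : ConnectedSpace S := by
    refine isConnected_iff_connectedSpace.1 (isConnected_sphere ?_ _ zero_le_one)
    rw [← Module.finrank_eq_rank]
    have h3 : Module.finrank ℝ (EuclideanSpace ℝ (Fin 3)) = 3 := by simp
    rw [h3]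
    norm_num
  have hcoe : ContMDiff (𝓡 2) 𝓘(ℝ, EuclideanSpace ℝ (Fin 3)) ((⊤ : ℕ∞) : WithTop ℕ∞)
      ((↑) : S → EuclideanSpace ℝ (Fin 3)) := contMDiff_coe_sphere
  have hemb : ContMDiff 𝓘(ℝ, EuclideanSpace ℝ (Fin 3)) 𝓘(ℝ, Fin 2 → ℂ)
      ((⊤ : ℕ∞) : WithTop ℕ∞) emb := emb.contMDiff
  refine ⟨S, inferInstance, inferInstance, hman, hcomp, inferInstance, hconn,
    fun v => emb (v : EuclideanSpace ℝ (Fin 3)), hemb.comp hcoe, ?_, ?_, ?_⟩
  · exact ((emb.continuous.comp continuous_subtype_val).isClosedEmbedding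
      (fun v w h => Subtype.ext (emb_injective h))).isEmbedding
  · refine hasInjectiveDerivative_of_mfderiv _ (hemb.comp hcoe) fun x => ?_
    have h1 : mfderiv (𝓡 2) 𝓘(ℝ, Fin 2 → ℂ)
        (fun v : S => emb (v : EuclideanSpace ℝ (Fin 3))) x
        = (mfderiv 𝓘(ℝ, EuclideanSpace ℝ (Fin 3)) 𝓘(ℝ, Fin 2 → ℂ) emb
            (x : EuclideanSpace ℝ (Fin 3))).comp
          (mfderiv (𝓡 2) 𝓘(ℝ, EuclideanSpace ℝ (Fin 3))
            ((↑) : S → EuclideanSpace ℝ (Fin 3)) x) :=
      mfderiv_comp x (hemb.mdifferentiable (by simp) _) (hcoe.mdifferentiable (by simp) _)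
    rw [h1, ContinuousLinearMap.mfderiv_eq]
    exact emb_injective.comp (mfderiv_coe_sphere_injective (n := 2) x)
  · ext w
    constructor
    · rintro ⟨v, rfl⟩
      have hv : ‖(v : EuclideanSpace ℝ (Fin 3))‖ = 1 := norm_eq_of_mem_sphere v
      have hv2 : ‖(v : EuclideanSpace ℝ (Fin 3))‖ ^ 2 = 1 := by rw [hv]; norm_num
      rw [EuclideanSpace.norm_sq_eq, Fin.sum_univ_three] at hv2
      simp only [Real.norm_eq_abs, sq_abs] at hv2
      refine ⟨?_, ?_⟩
      · simp only [emb_one]; exact Complex.ofReal_im _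
      · simp only [emb_zero, emb_one]
        rw [← Complex.normSq_eq_norm_sq, Complex.normSq_apply, Complex.ofReal_re]
        simp only
        linarith
    · rintro ⟨h1, h2⟩
      have hn : ‖(!₂[(w 0).re, (w 0).im, (w 1).re] : EuclideanSpace ℝ (Fin 3))‖ = 1 := by
        rw [← Complex.normSq_eq_norm_sq, Complex.normSq_apply] at h2
        have h3 : ‖(!₂[(w 0).re, (w 0).im, (w 1).re] : EuclideanSpace ℝ (Fin 3))‖ ^ 2 = 1 := by
          rw [EuclideanSpace.norm_sq_eq, Fin.sum_univ_three]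
          simp only [Real.norm_eq_abs, sq_abs]
          simp
          linarith
        have h4 := norm_nonneg (!₂[(w 0).re, (w 0).im, (w 1).re] : EuclideanSpace ℝ (Fin 3))
        nlinarith
      refine ⟨⟨!₂[(w 0).re, (w 0).im, (w 1).re], mem_sphere_zero_iff_norm.2 hn⟩, ?_⟩
      ext i
      fin_cases i
      · simp [emb_zero]
      · apply Complex.ext <;> simp [emb_one, h1]

/-- **Counterexample to Q1, with all hulls computed.** The round sphere
`{(z, t) : t real, |z|² + t² = 1}` is a smooth closed surface, the hull of a compact subset `E`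
consists of `E` and of the flat discs spanned by the circles of latitude contained in `E`, and so
either `E` is polynomially convex or its hull minus `E` contains an analytic disc. -/
theorem result :
    IsSmoothClosedSurface roundSphere ∧
    ∀ E : Set (Fin 2 → ℂ), E ⊆ roundSphere → IsCompact E →
      polyHull E = E ∪ {z | (z 1).im = 0 ∧ ‖z 0‖ ^ 2 + (z 1).re ^ 2 < 1 ∧
        ∀ a : ℂ, ‖a‖ ^ 2 + (z 1).re ^ 2 = 1 → (![a, z 1] : Fin 2 → ℂ) ∈ E} ∧
      (polyHull E = E ∨ ContainsDisc (polyHull E \ E)) := by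
  refine ⟨surface_roundSphere, fun E hES hE => ?_⟩
  have hdesc : polyHull E = E ∪ {z | (z 1).im = 0 ∧ ‖z 0‖ ^ 2 + (z 1).re ^ 2 < 1 ∧
        ∀ a : ℂ, ‖a‖ ^ 2 + (z 1).re ^ 2 = 1 → (![a, z 1] : Fin 2 → ℂ) ∈ E} := by
    ext z
    constructor
    · intro hz
      by_cases hzE : z ∈ E
      · exact Or.inl hzE
      · right
        obtain ⟨t, r, h1, h2, h3, h4⟩ := latitude_circle_full hE (fun w hw => hES hw)
          ((hull_iff hE z).1 hz) hzE
        have hre : (z 1).re = t := by rw [h1]; simp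
        have hr0 : 0 ≤ r := (norm_nonneg _).trans h2.le
        refine ⟨by rw [h1]; simp, ?_, ?_⟩
        · rw [hre]
          nlinarith [norm_nonneg (z 0)]
        · intro a ha
          rw [hre] at ha
          rw [h1]
          apply h4
          have : ‖a‖ ^ 2 = r ^ 2 := by linarith
          exact (sq_eq_sq₀ (norm_nonneg _) hr0).1 this
    · rintro (hz | ⟨h1, h2, h3⟩)
      · intro p
        exact ⟨z, hz, le_rfl⟩
      · have hz1 : z 1 = ((z 1).re : ℂ) := Complex.ext (by simp) (by simp [h1])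
        set t := (z 1).re with ht
        have hpos : 0 < 1 - t ^ 2 := by nlinarith [sq_nonneg ‖z 0‖]
        have hr : 0 < Real.sqrt (1 - t ^ 2) := Real.sqrt_pos.2 hpos
        have hrr : Real.sqrt (1 - t ^ 2) ^ 2 = 1 - t ^ 2 := Real.sq_sqrt hpos.le
        have hzeq : z = ![z 0, (t : ℂ)] := by
          ext i
          fin_cases i
          · rfl
          · simpa using hz1
        rw [hzeq]
        refine disc_mem_hull hE hr (fun a ha => ?_) ?_
        · have := h3 a (by rw [ha, hrr]; ring)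
          rwa [hz1] at this
        · have h0 := norm_nonneg (z 0)
          by_contra hcon
          rw [not_lt] at hcon
          nlinarith
  refine ⟨hdesc, ?_⟩
  by_cases hEq : polyHull E = E
  · exact Or.inl hEq
  · right
    have hsub : E ⊆ polyHull E := fun z hz p => ⟨z, hz, le_rfl⟩
    have : ∃ z ∈ polyHull E, z ∉ E := by
      by_contra hcon
      push Not at hcon
      exact hEq (Set.Subset.antisymm hcon hsub)
    obtain ⟨z, hz, hzE⟩ := this
    obtain ⟨t, r, h1, h2, h3, h4⟩ := latitude_circle_full hE (fun w hw => hES hw)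
      ((hull_iff hE z).1 hz) hzE
    have hr0 : 0 < r := (norm_nonneg _).trans_lt h2
    refine ⟨fun ζ => ![(r : ℂ) * ζ, (t : ℂ)], ?_, ⟨1 / 2, ?_, ?_⟩, ?_⟩
    · refine Differentiable.differentiableOn ?_
      rw [differentiable_pi]
      intro i
      fin_cases i
      · exact (differentiable_id.const_mul (r : ℂ))
      · exact differentiable_const _
    · rw [mem_ball_zero_iff]; norm_num
    · intro h
      have := congrFun h 0
      simp at this
      exact hr0.ne' this
    · rintro _ ⟨ζ, hζ, rfl⟩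
      rw [mem_ball_zero_iff] at hζ
      have hlt : ‖(r : ℂ) * ζ‖ < r := by
        rw [norm_mul, Complex.norm_real, Real.norm_of_nonneg hr0.le]
        nlinarith
      refine ⟨disc_mem_hull hE hr0 h4 hlt, fun hmem => ?_⟩
      have h5 := (hES hmem).2
      simp only [Matrix.cons_val_zero, Matrix.cons_val_one, Complex.ofReal_re] at h5
      have h6 : ‖(r : ℂ) * ζ‖ ^ 2 < r ^ 2 := pow_lt_pow_left₀ hlt (norm_nonneg _) two_ne_zero
      linarith

end Pool.Agent.Results.MP_da00a8_an.RoundSphereHulls
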